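import Mathlib
import Pool.Agent.W648.DSep.Cube

/-!
# D-separable products over fixed points of the beth function

If the cardinal `κ` is a fixed point of the beth function of countable cofinality, then the product
of any `κ` many nontrivial second countable Hausdorff spaces is D-separable. A product of nontrivial
second countable Hausdorff spaces has a sigma-disjoint pi-base only if it has countably many
factors. Hence there are compact D-separable spaces without a sigma-disjoint pi-base of arbitrarily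
large weight: all Cantor cubes, all Tychonoff cubes, all products of nontrivial compact metrizable
spaces with `κ` many factors.
-/

set_option autoImplicit false

open Cardinal Set Topology TopologicalSpace

namespace Pool.Agent.Results.MP_1644e0_gt.BethFixedPoints

open Pool.Agent.W648.DSep (mu mu_eq shift)

/-- `X` is D-separable: for every sequence of dense sets `D n` there are discrete sets
`F n ⊆ D n` with dense union. -/
def DSeparable (X : Type) [TopologicalSpace X] : Prop :=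
  ∀ D : ℕ → Set X, (∀ n, Dense (D n)) →
    ∃ F : ℕ → Set X, (∀ n, F n ⊆ D n ∧ DiscreteTopology (F n)) ∧ Dense (⋃ n, F n)

/-- `X` has a sigma-disjoint pi-base: a family `⋃ n, B n` of nonempty open sets, each `B n`
pairwise disjoint, such that every nonempty open set contains a member of the family. -/
def HasSigmaDisjointPiBase (X : Type) [TopologicalSpace X] : Prop :=
  ∃ B : ℕ → Set (Set X), (∀ n, ∀ V ∈ B n, IsOpen V ∧ V.Nonempty) ∧
    (∀ n, (B n).PairwiseDisjoint id) ∧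
    ∀ U : Set X, IsOpen U → U.Nonempty → ∃ n, ∃ V ∈ B n, V ⊆ U

theorem exists_base (Y : Type) [TopologicalSpace Y] [SecondCountableTopology Y] :
    ∃ B : ℕ → Set Y, IsTopologicalBasis (Set.range B) := by
  obtain ⟨b, hbc, -, hb⟩ := TopologicalSpace.exists_countable_basis Y
  obtain ⟨B, hB⟩ := (hbc.insert ∅).exists_eq_range (Set.insert_nonempty _ _)
  refine ⟨B, ?_⟩
  rw [← hB]
  exact hb.insert_empty

theorem isOpen_coord {ι : Type} {X : ι → Type} [∀ i, TopologicalSpace (X i)] (i : ι)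
    (U : Set (X i)) (hU : IsOpen U) : IsOpen {x : ∀ i, X i | x i ∈ U} :=
  hU.preimage (continuous_apply i)

theorem choice_discrete {ι : Type} {X : ι → Type} [∀ i, TopologicalSpace (X i)]
    {J : Type} [Nonempty ι] [LinearOrder J] [WellFoundedLT J] [Infinite J]
    (B : ∀ i, ℕ → Set (X i)) (hBo : ∀ i n, IsOpen (B i n))
    (hsep : ∀ i (x y : X i), x ≠ y → ∃ m n, x ∈ B i m ∧ y ∈ B i n ∧ Disjoint (B i m) (B i n))
    (E : J → Set (∀ i, X i)) (hE : ∀ j, #(E j) = mu J j) :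
    ∃ x : J → (∀ i, X i), (∀ j, x j ∈ E j) ∧
      ∀ j, ∃ W : Set (∀ i, X i), IsOpen W ∧ x j ∈ W ∧ ∀ i, i ≠ j → x i ∉ W := by
  classical
  have hc : ∀ x y : (∀ i, X i), ∃ (ξ : ι) (m n : ℕ), x ≠ y →
      (x ξ ∈ B ξ m ∧ y ξ ∈ B ξ n ∧ Disjoint (B ξ m) (B ξ n)) := by
    intro x y
    by_cases h : x = y
    · exact ⟨Classical.arbitrary ι, 0, 0, fun h' => absurd h h'⟩
    · obtain ⟨ξ, hξ⟩ := Function.ne_iff.1 h
      obtain ⟨m, n, hmn⟩ := hsep ξ _ _ hξ
      exact ⟨ξ, m, n, fun _ => hmn⟩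
  choose c a b hc using hc
  set L : J → Set (∀ i, X i) := fun j => ⋃ i : Iio j, E i.1 with hL
  set ν : J → Cardinal.{0} := fun j => #J + Cardinal.sum (fun i : Iio j => mu J i.1) with hν
  have hJ : ∀ j, #J ≤ ν j := fun j => self_le_add_right _ _
  have hν0 : ∀ j, ℵ₀ ≤ ν j := fun j => (Cardinal.aleph0_le_mk J).trans (hJ j)
  have hL1 : ∀ j, #(L j) ≤ ν j := by
    intro j
    refine (Cardinal.mk_iUnion_le_sum_mk).trans ?_
    simp only [hE]
    exact self_le_add_left _ _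
  have hEL : ∀ i j, i < j → E i ⊆ L j := by
    intro i j hij
    exact subset_iUnion (fun i : Iio j => E i.1) ⟨i, hij⟩
  set C : J → Set ι := fun j => Set.image2 c (L j) (L j) with hC
  have hC1 : ∀ j, #(C j) ≤ ν j := by
    intro j
    have : #(C j) ≤ #(L j) * #(L j) := by
      rw [show #(L j) * #(L j) = #((L j) × (L j)) from Cardinal.mul_def _ _]
      refine Cardinal.mk_le_of_surjective (f := fun p : (L j) × (L j) =>
        (⟨c p.1.1 p.2.1, Set.mem_image2_of_mem p.1.2 p.2.2⟩ : C j)) ?_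
      rintro ⟨ξ, x, hx, y, hy, rfl⟩
      exact ⟨(⟨x, hx⟩, ⟨y, hy⟩), rfl⟩
    exact this.trans ((mul_le_mul' (hL1 j) (hL1 j)).trans (Cardinal.mul_eq_self (hν0 j)).le)
  -- first shrinking
  have h1 : ∀ j, ∃ E' : Set (∀ i, X i), E' ⊆ E j ∧ 2 ^ ((2 : Cardinal.{0}) ^ ν j) < #E' ∧
      ∀ z ∈ E', ∀ z' ∈ E', ∀ ξ ∈ C j, ∀ n, (z ξ ∈ B ξ n ↔ z' ξ ∈ B ξ n) := by
    intro j
    have hreg : (mu J j).IsRegular := by
      rw [mu_eq]
      exact Cardinal.isRegular_succ ((hν0 j).trans ((Cardinal.cantor _).le.trans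
        (Cardinal.cantor _).le))
    have hcard : #(Set (C j × ℕ)) < (mu J j).ord.cof := by
      rw [hreg.cof_ord, mu_eq]
      refine lt_of_le_of_lt ?_ (Order.lt_succ _)
      rw [Cardinal.mk_set]
      refine le_trans (Cardinal.power_le_power_left two_ne_zero ?_) (Cardinal.cantor _).le
      rw [← Cardinal.mul_def, Cardinal.mk_nat]
      exact (mul_le_mul' (hC1 j) (hν0 j)).trans (Cardinal.mul_eq_self (hν0 j)).le
    obtain ⟨q, t, ht, hta, hf⟩ := Cardinal.infinite_pigeonhole_set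
      (fun z : E j => {p : C j × ℕ | z.1 p.1.1 ∈ B p.1.1 p.2}) (mu J j) (hE j).ge hreg.1 hcard
    refine ⟨t, ht, ?_, ?_⟩
    · refine lt_of_lt_of_le ?_ hta
      rw [mu_eq]
      exact Order.lt_succ _
    · intro z hz z' hz' ξ hξ n
      have e1 := Set.ext_iff.1 (hf hz) (⟨ξ, hξ⟩, n)
      have e2 := Set.ext_iff.1 (hf hz') (⟨ξ, hξ⟩, n)
      exact e1.trans e2.symm
  choose E' hE'E hE'card hE'C using h1
  have hne : ∀ j, ∃ r, r ∈ E' j := by
    intro j
    have : (E' j).Nonempty := by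
      rw [Set.nonempty_iff_ne_empty]
      intro h0
      have := hE'card j
      rw [h0] at this
      simp at this
    exact this
  choose rep hrep using hne
  -- the path
  have h2 : ∀ j, ∃ x ∈ E' j, ∃ y ∈ E' j, ∃ z ∈ E' j, x ≠ y ∧ y ≠ z ∧
      (∀ u ∈ L j, (u (c x y) ∈ B (c x y) (b x y) ↔ u (c y z) ∈ B (c y z) (b y z))) ∧
      (∀ i, (rep i (c x y) ∈ B (c x y) (b x y) ↔ rep i (c y z) ∈ B (c y z) (b y z))) := by
    intro j
    let el : (L j) ⊕ J → (∀ i, X i) := Sum.elim (fun u => u.1) rep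
    have hcol : 2 ^ #(Set ((L j) ⊕ J)) < #(E' j) := by
      refine lt_of_le_of_lt ?_ (hE'card j)
      rw [Cardinal.mk_set]
      refine Cardinal.power_le_power_left two_ne_zero
        (Cardinal.power_le_power_left two_ne_zero ?_)
      rw [Cardinal.mk_sum, Cardinal.lift_id, Cardinal.lift_id]
      exact (add_le_add (hL1 j) (hJ j)).trans (Cardinal.add_eq_self (hν0 j)).le
    obtain ⟨x, y, z, hxy, hyz, hf⟩ := shift (S := E' j)
      (fun x y => {u : (L j) ⊕ J | el u (c x.1 y.1) ∈ B (c x.1 y.1) (b x.1 y.1)}) hcol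
    refine ⟨x.1, x.2, y.1, y.2, z.1, z.2, fun h => hxy (Subtype.ext h),
      fun h => hyz (Subtype.ext h), ?_, ?_⟩
    · intro u hu
      have := Set.ext_iff.1 hf (Sum.inl ⟨u, hu⟩)
      exact this
    · intro i
      have := Set.ext_iff.1 hf (Sum.inr i)
      exact this
  choose x hx y hy z hz hxy hyz hLj hrj using h2
  refine ⟨y, fun j => hE'E j (hy j), fun j => ?_⟩
  refine ⟨{w | w (c (x j) (y j)) ∈ B (c (x j) (y j)) (b (x j) (y j)) ∧
    w (c (y j) (z j)) ∈ B (c (y j) (z j)) (a (y j) (z j))}, ?_,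
    ⟨(hc _ _ (hxy j)).2.1, (hc _ _ (hyz j)).1⟩, ?_⟩
  · apply IsOpen.and
    · exact isOpen_coord _ _ (hBo _ _)
    · exact isOpen_coord _ _ (hBo _ _)
  · rintro i hij ⟨hw1, hw2⟩
    have hdis := (hc _ _ (hyz j)).2.2
    rcases lt_or_gt_of_ne hij with h | h
    · have hmem : y i ∈ L j := hEL i j h (hE'E i (hy i))
      have h3 := (hLj j (y i) hmem).1 hw1
      exact Set.disjoint_left.1 hdis hw2 h3
    · have hxL : x j ∈ L i := hEL j i h (hE'E j (hx j))
      have hyL : y j ∈ L i := hEL j i h (hE'E j (hy j))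
      have hzL : z j ∈ L i := hEL j i h (hE'E j (hz j))
      have a1 := (hE'C i (y i) (hy i) (rep i) (hrep i) _ (Set.mem_image2_of_mem hxL hyL) _).1 hw1
      have a2 := (hrj j i).1 a1
      have a3 := (hE'C i (y i) (hy i) (rep i) (hrep i) _ (Set.mem_image2_of_mem hyL hzL) _).2 a2
      exact Set.disjoint_left.1 hdis hw2 a3

/-- Basic open sets of a product given by finitely many coordinates and members of the bases. -/
def O {ι : Type} {X : ι → Type} (B : ∀ i, ℕ → Set (X i)) (s : Finset (ι × ℕ)) :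
    Set (∀ i, X i) := {x | ∀ p ∈ s, x p.1 ∈ B p.1 p.2}

theorem isOpen_O {ι : Type} {X : ι → Type} [∀ i, TopologicalSpace (X i)]
    (B : ∀ i, ℕ → Set (X i)) (hBo : ∀ i n, IsOpen (B i n)) (s : Finset (ι × ℕ)) :
    IsOpen (O B s) := by
  have : O B s = ⋂ p ∈ s, {x : ∀ i, X i | x p.1 ∈ B p.1 p.2} := by
    ext x
    simp only [O, Set.mem_ofPred_eq, Set.mem_iInter]
  rw [this]
  exact isOpen_biInter_finset (fun p _ => isOpen_coord _ _ (hBo _ _))

theorem exists_O_subset {ι : Type} {X : ι → Type} [∀ i, TopologicalSpace (X i)]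
    (B : ∀ i, ℕ → Set (X i)) (hB : ∀ i, IsTopologicalBasis (Set.range (B i)))
    {U : Set (∀ i, X i)} (hU : IsOpen U) {p : ∀ i, X i}
    (hp : p ∈ U) : ∃ s : Finset (ι × ℕ), p ∈ O B s ∧ O B s ⊆ U := by
  classical
  obtain ⟨s, u, hu, hsub⟩ := isOpen_pi_iff.1 hU p hp
  have h1 : ∀ i, ∃ n, i ∈ s → (p i ∈ B i n ∧ B i n ⊆ u i) := by
    intro i
    by_cases hi : i ∈ s
    · obtain ⟨v, ⟨n, rfl⟩, hv1, hv2⟩ := (hB i).exists_subset_of_mem_open (hu i hi).2 (hu i hi).1
      exact ⟨n, fun _ => ⟨hv1, hv2⟩⟩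
    · exact ⟨0, fun h => absurd h hi⟩
  choose n hn using h1
  refine ⟨s.image (fun i => (i, n i)), ?_, ?_⟩
  · intro q hq
    obtain ⟨i, hi, rfl⟩ := Finset.mem_image.1 hq
    exact (hn i hi).1
  · intro x hx
    apply hsub
    intro i hi
    exact (hn i hi).2 (hx _ (Finset.mem_image.2 ⟨i, hi, rfl⟩))

theorem big {ι : Type} {X : ι → Type} [∀ i, TopologicalSpace (X i)] [∀ i, T2Space (X i)]
    [∀ i, Nontrivial (X i)] [Infinite ι]
    (B : ∀ i, ℕ → Set (X i)) (hBo : ∀ i n, IsOpen (B i n))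
    (hsl : ∀ c < #ι, (2 : Cardinal.{0}) ^ c < #ι)
    (D : Set (∀ i, X i)) (hD : Dense D) (s : Finset (ι × ℕ)) (hs : (O B s).Nonempty)
    (k : Cardinal.{0}) (hk : k < #ι) :
    k ≤ #(↥(D ∩ O B s)) := by
  classical
  by_contra hlt
  push Not at hlt
  have hpq : ∀ i, ∃ (p q : X i) (G H : Set (X i)), IsOpen G ∧ IsOpen H ∧ p ∈ G ∧ q ∈ H ∧
      Disjoint G H := by
    intro i
    obtain ⟨p, q, hpq⟩ := exists_pair_ne (X i)
    obtain ⟨G, H, hG, hH, hpG, hqH, hGH⟩ := t2_separation hpq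
    exact ⟨p, q, G, H, hG, hH, hpG, hqH, hGH⟩
  choose p q G H hG hH hpG hqH hGH using hpq
  obtain ⟨x₀, hx₀⟩ := hs
  let S : Finset ι := s.image Prod.fst
  let g : ↥((S : Set ι)ᶜ) → Set ↥(D ∩ O B s) := fun ξ => {x | x.1 ξ.1 ∈ G ξ.1}
  have hg : Function.Injective g := by
    intro ξ η hξη
    by_contra hne
    have hne' : ξ.1 ≠ η.1 := fun h => hne (Subtype.ext h)
    have hopen : IsOpen (O B s ∩ {x : ∀ i, X i | x ξ.1 ∈ G ξ.1} ∩
        {x : ∀ i, X i | x η.1 ∈ H η.1}) :=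
      ((isOpen_O B hBo s).inter (isOpen_coord _ _ (hG _))).inter (isOpen_coord _ _ (hH _))
    have hnon : (O B s ∩ {x : ∀ i, X i | x ξ.1 ∈ G ξ.1} ∩
        {x : ∀ i, X i | x η.1 ∈ H η.1}).Nonempty := by
      refine ⟨Function.update (Function.update x₀ ξ.1 (p ξ.1)) η.1 (q η.1), ⟨?_, ?_⟩, ?_⟩
      · intro r hr
        have hrS : r.1 ∈ S := Finset.mem_image.2 ⟨r, hr, rfl⟩
        have h1 : r.1 ≠ ξ.1 := by
          intro h
          apply ξ.2
          rw [← h]
          exact hrS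
        have h2 : r.1 ≠ η.1 := by
          intro h
          apply η.2
          rw [← h]
          exact hrS
        rw [Function.update_of_ne h2, Function.update_of_ne h1]
        exact hx₀ r hr
      · change Function.update (Function.update x₀ ξ.1 (p ξ.1)) η.1 (q η.1) ξ.1 ∈ G ξ.1
        rw [Function.update_of_ne hne', Function.update_self]
        exact hpG _
      · change Function.update (Function.update x₀ ξ.1 (p ξ.1)) η.1 (q η.1) η.1 ∈ H η.1
        rw [Function.update_self]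
        exact hqH _
    obtain ⟨x, ⟨⟨hx1, hx2⟩, hx3⟩, hxD⟩ := hD.inter_open_nonempty _ hopen hnon
    have hmem : (⟨x, hxD, hx1⟩ : ↥(D ∩ O B s)) ∈ g ξ := hx2
    rw [hξη] at hmem
    have h4 : x η.1 ∈ G η.1 := hmem
    exact Set.disjoint_left.1 (hGH η.1) h4 hx3
  have h1 := Cardinal.mk_le_of_injective hg
  rw [Cardinal.mk_set] at h1
  have h2 : #(↥((S : Set ι)ᶜ)) = #ι := Cardinal.mk_compl_finset_of_infinite S
  rw [h2] at h1
  exact absurd (h1.trans (Cardinal.power_le_power_left two_ne_zero hlt.le)) (not_le.2 (hsl k hk))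

theorem mk_finset_le {α : Type} (k : Cardinal.{0}) (hk : ℵ₀ ≤ k) (h : #α ≤ k) :
    #(Finset α) ≤ k := by
  classical
  have h1 : #(Finset α) ≤ #(List α) :=
    Cardinal.mk_le_of_surjective (f := List.toFinset) List.toFinset_surjective
  exact h1.trans ((Cardinal.mk_list_le_max α).trans (max_le hk h))

/-- One step: a dense set `D` contains a discrete subset meeting all basic open sets with
coordinates in a set of at most `k` coordinates. -/
theorem step {ι : Type} {X : ι → Type} [∀ i, TopologicalSpace (X i)] [∀ i, T2Space (X i)]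
    [∀ i, Nontrivial (X i)] [Infinite ι]
    (B : ∀ i, ℕ → Set (X i)) (hBo : ∀ i n, IsOpen (B i n))
    (hsep : ∀ i (x y : X i), x ≠ y → ∃ m n, x ∈ B i m ∧ y ∈ B i n ∧ Disjoint (B i m) (B i n))
    (hsl : ∀ c < #ι, (2 : Cardinal.{0}) ^ c < #ι)
    (k : Cardinal.{0}) (hk : ℵ₀ ≤ k) (hmu : ∀ j : k.ord.ToType, mu _ j < #ι)
    (I : Set ι) (hI : #I ≤ k)
    (D : Set (∀ i, X i)) (hD : Dense D) :
    ∃ F : Set (∀ i, X i), F ⊆ D ∧ DiscreteTopology F ∧
      ∀ s : Finset (ι × ℕ), (O B s).Nonempty → (∀ p ∈ s, p.1 ∈ I) → (F ∩ O B s).Nonempty := by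
  classical
  let J := k.ord.ToType
  have hJ : #J = k := by simp [J]
  have : Infinite J := Cardinal.infinite_iff.2 (by rw [hJ]; exact hk)
  let P := Finset (I × ℕ)
  have hP : #P ≤ #J := by
    rw [hJ]
    refine mk_finset_le k hk ?_
    rw [← Cardinal.mul_def, Cardinal.mk_nat]
    exact (mul_le_mul' hI hk).trans (Cardinal.mul_eq_self hk).le
  obtain ⟨emb⟩ := hP
  have hsurj : Function.Surjective (Function.invFun emb) := Function.invFun_surjective emb.injective
  set e : J → P := Function.invFun emb with he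
  let cv : P → Finset (ι × ℕ) := fun s => s.image (fun p => (p.1.1, p.2))
  have hO0 : (O B (∅ : Finset (ι × ℕ))).Nonempty := by
    refine ⟨fun i => Classical.arbitrary (X i), ?_⟩
    intro p hp
    simp at hp
  have hbig : ∀ j : J, ∃ E : Set (∀ i, X i), E ⊆ D ∧
      ((O B (cv (e j))).Nonempty → E ⊆ O B (cv (e j))) ∧ #E = mu J j := by
    intro j
    by_cases hne : (O B (cv (e j))).Nonempty
    · obtain ⟨E, hE1, hE2⟩ := Cardinal.le_mk_iff_exists_subset.1
        (big B hBo hsl D hD _ hne _ (hmu j))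
      exact ⟨E, fun x hx => (hE1 hx).1, fun _ x hx => (hE1 hx).2, hE2⟩
    · obtain ⟨E, hE1, hE2⟩ := Cardinal.le_mk_iff_exists_subset.1
        (big B hBo hsl D hD ∅ hO0 _ (hmu j))
      exact ⟨E, fun x hx => (hE1 hx).1, fun h => absurd h hne, hE2⟩
  choose E hED hEO hEc using hbig
  obtain ⟨x, hx, hW⟩ := choice_discrete B hBo hsep E hEc
  refine ⟨Set.range x, ?_, ?_, ?_⟩
  · rintro _ ⟨j, rfl⟩
    exact hED j (hx j)
  · refine discreteTopology_iff_isOpen_singleton.2 ?_
    rintro ⟨_, j, rfl⟩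
    obtain ⟨W, hWo, hjW, hiW⟩ := hW j
    refine isOpen_induced_iff.2 ⟨W, hWo, ?_⟩
    ext ⟨w, i, rfl⟩
    rw [Set.mem_preimage, Set.mem_singleton_iff]
    constructor
    · intro h
      by_contra hne
      refine hiW i (fun h' => hne ?_) h
      subst h'
      rfl
    · intro h
      have h' : x i = x j := congrArg Subtype.val h
      change x i ∈ W
      rw [h']; exact hjW
  · intro s hne hs
    let f : P := s.attach.image (fun p => ((⟨p.1.1, hs p.1 p.2⟩ : I), p.1.2))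
    obtain ⟨j, hj⟩ := hsurj f
    have hcv : cv (e j) = s := by
      rw [hj]
      ext ⟨i, n⟩
      simp only [cv, f, Finset.mem_image, Finset.mem_attach, true_and, Subtype.exists, Prod.exists]
      constructor
      · rintro ⟨a, ha, m, ⟨c, d, hcd, h1⟩, h2⟩
        simp only [Prod.mk.injEq, Subtype.mk.injEq] at h1 h2
        obtain ⟨h11, h12⟩ := h1
        obtain ⟨h21, h22⟩ := h2
        subst h21 h22 h11 h12
        exact hcd
      · intro h
        exact ⟨i, hs _ h, n, ⟨i, n, h, rfl⟩, rfl⟩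
    refine ⟨x j, ⟨j, rfl⟩, ?_⟩
    have h2 := hEO j (by rw [hcv]; exact hne) (hx j)
    rw [hcv] at h2
    exact h2

/-- D-separability of products over a set of coordinates which is exhausted by an increasing
sequence of smaller sets. -/
theorem dSeparable_of {ι : Type} {X : ι → Type} [∀ i, TopologicalSpace (X i)]
    [∀ i, SecondCountableTopology (X i)] [∀ i, T2Space (X i)]
    [∀ i, Nontrivial (X i)] [Infinite ι]
    (hsl : ∀ c < #ι, (2 : Cardinal.{0}) ^ c < #ι)
    (k : ℕ → Cardinal.{0}) (hk : ∀ n, ℵ₀ ≤ k n) (hmu : ∀ n, ∀ j : (k n).ord.ToType, mu _ j < #ι)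
    (I : ℕ → Set ι) (hI : ∀ n, #(I n) ≤ k n) (hmono : Monotone I) (hun : ∀ i, ∃ n, i ∈ I n) :
    DSeparable (∀ i, X i) := by
  classical
  intro D hD
  choose B hB using fun i => exists_base (X i)
  have hBo : ∀ i n, IsOpen (B i n) := fun i n => (hB i).isOpen ⟨n, rfl⟩
  have hsep : ∀ i (x y : X i), x ≠ y → ∃ m n, x ∈ B i m ∧ y ∈ B i n ∧
      Disjoint (B i m) (B i n) := by
    intro i x y hxy
    obtain ⟨G, H, hG, hH, hpG, hqH, hGH⟩ := t2_separation hxy
    obtain ⟨_, ⟨m, rfl⟩, hm1, hm2⟩ := (hB i).exists_subset_of_mem_open hpG hG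
    obtain ⟨_, ⟨n, rfl⟩, hn1, hn2⟩ := (hB i).exists_subset_of_mem_open hqH hH
    exact ⟨m, n, hm1, hn1, hGH.mono hm2 hn2⟩
  choose F hF1 hF2 hF3 using fun n => step B hBo hsep hsl (k n) (hk n) (hmu n) (I n) (hI n)
    (D n) (hD n)
  refine ⟨F, fun n => ⟨hF1 n, hF2 n⟩, ?_⟩
  rw [dense_iff_inter_open]
  rintro U hU ⟨p, hp⟩
  obtain ⟨s, hps, hs⟩ := exists_O_subset B hB hU hp
  choose lv hlv using hun
  let n : ℕ := s.sup (fun q => lv q.1)
  have hsn : ∀ q ∈ s, q.1 ∈ I n := fun q hq =>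
    hmono (Finset.le_sup (f := fun q : ι × ℕ => lv q.1) hq) (hlv q.1)
  obtain ⟨x, hx1, hx2⟩ := hF3 n s ⟨p, hps⟩ hsn
  exact ⟨x, hs hx2, Set.mem_iUnion.2 ⟨n, hx1⟩⟩

theorem mu_le_beth (k : Cardinal.{0}) (j : k.ord.ToType) :
    mu _ j ≤ ℶ_ (k.ord + 4 * ((Ordinal.ToType.mk.symm j).1 + 1)) := by
  induction j using WellFoundedLT.induction with
  | ind j ih =>
    set r : k.ord.ToType → Ordinal.{0} := fun i => (Ordinal.ToType.mk.symm i).1 with hr
    have hrm : ∀ i j : k.ord.ToType, i < j → r i + 1 ≤ r j := by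
      intro i j hij
      have : Ordinal.ToType.mk.symm i < Ordinal.ToType.mk.symm j :=
        (OrderIso.lt_iff_lt _).2 hij
      exact Order.add_one_le_of_lt this
    set β : Ordinal.{0} := k.ord + 4 * r j with hβ
    have hkβ : k ≤ ℶ_ β := by
      refine (Cardinal.le_beth_ord k).trans (Cardinal.beth_le_beth.2 ?_)
      rw [hβ]
      exact le_self_add
    have h0 : ℵ₀ ≤ ℶ_ β := Cardinal.aleph0_le_beth _
    have h1 : ∀ i : Iio j, mu k.ord.ToType i.1 ≤ ℶ_ β := by
      intro i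
      refine (ih i.1 i.2).trans (Cardinal.beth_le_beth.2 ?_)
      rw [hβ]
      exact add_le_add_right (mul_le_mul_right (hrm i.1 j i.2) _) _
    have h2 : Cardinal.sum (fun i : Iio j => mu k.ord.ToType i.1) ≤ ℶ_ β := by
      refine (Cardinal.sum_le_sum _ _ h1).trans ?_
      rw [Cardinal.sum_const, Cardinal.lift_id, Cardinal.lift_id]
      refine (mul_le_mul' ?_ le_rfl).trans (Cardinal.mul_eq_self h0).le
      refine (Cardinal.mk_set_le _).trans ?_
      rw [Cardinal.mk_toType, Cardinal.card_ord]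
      exact hkβ
    have h3 : #(k.ord.ToType) + Cardinal.sum (fun i : Iio j => mu k.ord.ToType i.1) ≤ ℶ_ β := by
      refine (add_le_add ?_ h2).trans (Cardinal.add_eq_self h0).le
      rw [Cardinal.mk_toType, Cardinal.card_ord]
      exact hkβ
    have h4 : (2 : Cardinal.{0}) ^ ((2 : Cardinal.{0}) ^ (#(k.ord.ToType) +
        Cardinal.sum (fun i : Iio j => mu k.ord.ToType i.1))) ≤ ℶ_ (β + 1 + 1) := by
      rw [Cardinal.beth_add_one, Cardinal.beth_add_one]
      exact Cardinal.power_le_power_left two_ne_zero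
        (Cardinal.power_le_power_left two_ne_zero h3)
    rw [mu_eq]
    refine Order.succ_le_of_lt (h4.trans_lt (Cardinal.beth_lt_beth.2 ?_))
    change β + 1 + 1 < k.ord + 4 * (r j + 1)
    rw [mul_add_one, ← add_assoc, ← hβ, add_assoc]
    refine add_lt_add_right ?_ β
    norm_num

theorem mu_lt {κ : Cardinal.{0}} (hκ : ℶ_ κ.ord = κ) {k : Cardinal.{0}} (hk : ℵ₀ ≤ k)
    (hlt : k < κ) (j : k.ord.ToType) : mu _ j < κ := by
  refine (mu_le_beth k j).trans_lt ?_
  conv_rhs => rw [← hκ]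
  rw [Cardinal.beth_lt_beth, Cardinal.lt_ord]
  have h1 : (Ordinal.ToType.mk.symm j).1 < k.ord := (Ordinal.ToType.mk.symm j).2
  have h2 : (Ordinal.ToType.mk.symm j).1 + 1 ≤ k.ord := Order.add_one_le_of_lt h1
  have h3 : k.ord + 4 * ((Ordinal.ToType.mk.symm j).1 + 1) ≤ k.ord + 4 * k.ord :=
    add_le_add_right (mul_le_mul_right h2 _) _
  refine (Ordinal.card_le_card h3).trans_lt ?_
  rw [Ordinal.card_add, Ordinal.card_mul, Cardinal.card_ord]
  have h4 : Ordinal.card 4 * k ≤ k := by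
    refine (mul_le_mul' ?_ le_rfl).trans (Cardinal.mul_eq_self hk).le
    have : Ordinal.card 4 = (4 : Cardinal.{0}) := by simp
    rw [this]
    exact (Cardinal.ofNat_lt_aleph0.le).trans hk
  exact ((add_le_add_right h4 k).trans (Cardinal.add_eq_self hk).le).trans_lt hlt

theorem two_pow_lt {κ : Cardinal.{0}} (hκ : ℶ_ κ.ord = κ) {c : Cardinal.{0}} (hc : c < κ) :
    (2 : Cardinal.{0}) ^ c < κ := by
  have hκ0 : ℵ₀ ≤ κ := by
    rw [← hκ]
    exact Cardinal.aleph0_le_beth _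
  have hlim := Cardinal.isSuccLimit_ord hκ0
  have h1 : c.ord < κ.ord := Cardinal.ord_lt_ord.2 hc
  have h2 : c.ord + 1 < κ.ord := hlim.add_one_lt h1
  calc (2 : Cardinal.{0}) ^ c ≤ 2 ^ (ℶ_ c.ord) :=
        Cardinal.power_le_power_left two_ne_zero (Cardinal.le_beth_ord c)
    _ = ℶ_ (c.ord + 1) := (Cardinal.beth_add_one _).symm
    _ < ℶ_ κ.ord := Cardinal.beth_lt_beth.2 h2
    _ = κ := hκ

/-- A cofinal sequence of cardinals. -/
theorem exists_seq {κ : Cardinal.{0}} (hcof : κ.ord.cof = ℵ₀) :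
    ∃ c : ℕ → Cardinal.{0}, (∀ n, c n < κ) ∧ ∀ μ < κ, ∃ n, μ ≤ c n := by
  rw [← Ordinal.cof_toType] at hcof
  obtain ⟨s, hs, hsc⟩ := Order.exists_cof_eq (α := κ.ord.ToType)
  rw [hcof] at hsc
  have : Nonempty (ℕ ≃ s) := by
    rw [← Cardinal.eq, hsc, Cardinal.mk_nat]
  obtain ⟨e⟩ := this
  refine ⟨fun n => (Ordinal.ToType.mk.symm (e n).1).1.card, fun n => ?_, fun μ hμ => ?_⟩
  · exact Cardinal.lt_ord.1 (Ordinal.ToType.mk.symm (e n).1).2
  · obtain ⟨y, hy, hxy⟩ := hs (Ordinal.ToType.mk ⟨μ.ord, Cardinal.ord_lt_ord.2 hμ⟩)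
    refine ⟨e.symm ⟨y, hy⟩, ?_⟩
    simp only [Equiv.apply_symm_apply]
    have h1 : (⟨μ.ord, Cardinal.ord_lt_ord.2 hμ⟩ : Set.Iio κ.ord) ≤ Ordinal.ToType.mk.symm y := by
      rw [OrderIso.le_symm_apply]
      exact hxy
    have h2 := Ordinal.card_le_card (show μ.ord ≤ (Ordinal.ToType.mk.symm y).1 from h1)
    rwa [Cardinal.card_ord] at h2

/-- An increasing cofinal sequence of infinite cardinals. -/
theorem exists_seq' {κ : Cardinal.{0}} (hκ0 : ℵ₀ < κ) (hcof : κ.ord.cof = ℵ₀) :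
    ∃ c : ℕ → Cardinal.{0}, Monotone c ∧ (∀ n, ℵ₀ ≤ c n) ∧ (∀ n, c n < κ) ∧
      ∀ μ < κ, ∃ n, μ ≤ c n := by
  obtain ⟨c, h1, h2⟩ := exists_seq hcof
  refine ⟨fun n => max ℵ₀ ((Finset.range (n + 1)).sup c), ?_, fun n => le_max_left _ _, ?_, ?_⟩
  · intro m n hmn
    refine max_le_max le_rfl (Finset.sup_mono ?_)
    exact Finset.range_subset_range.2 (by omega)
  · intro n
    refine max_lt hκ0 ((Finset.sup_lt_iff (bot_lt_of_lt hκ0)).2 (fun m _ => h1 m))
  · intro μ hμ
    obtain ⟨n, hn⟩ := h2 μ hμ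
    refine ⟨n, hn.trans (le_trans ?_ (le_max_right _ _))⟩
    exact Finset.le_sup (f := c) (Finset.mem_range.2 (Nat.lt_succ_self n))

/-- An exhausting sequence of sets of coordinates. -/
theorem exists_exhaustion {ι : Type} (hsl : ∀ c < #ι, (2 : Cardinal.{0}) ^ c < #ι)
    (c : ℕ → Cardinal.{0}) (hc : Monotone c) (hc0 : ∀ n, ℵ₀ ≤ c n)
    (hcof : ∀ μ < #ι, ∃ n, μ ≤ c n) :
    ∃ I : ℕ → Set ι, (∀ n, #(I n) ≤ c n) ∧ Monotone I ∧ ∀ i, ∃ n, i ∈ I n := by
  have h1 : #ι ≤ #(Σ n : ℕ, (c n).out) := by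
    by_contra hlt
    push Not at hlt
    obtain ⟨n, hn⟩ := hcof _ (hsl _ hlt)
    have h2 : c n ≤ #(Σ n : ℕ, (c n).out) := by
      have : #((c n).out) ≤ #(Σ n : ℕ, (c n).out) :=
        Cardinal.mk_le_of_injective (f := fun a => (⟨n, a⟩ : Σ n : ℕ, (c n).out))
          (fun a b h => by simpa using h)
      simpa using this
    exact absurd (hn.trans h2) (not_le.2 (Cardinal.cantor _))
  obtain ⟨f⟩ := h1
  refine ⟨fun n => {i | (f i).1 ≤ n}, ?_, ?_, ?_⟩
  · intro n
    have h1 : #({i | (f i).1 ≤ n} : Set ι) ≤ #(Σ m : Fin (n + 1), (c m.1).out) := by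
      refine Cardinal.mk_le_of_injective (f := fun i : ({i | (f i).1 ≤ n} : Set ι) =>
        (⟨⟨(f i.1).1, Nat.lt_succ_of_le i.2⟩, (f i.1).2⟩ : Σ m : Fin (n + 1), (c m.1).out)) ?_
      rintro ⟨a, h⟩ ⟨a', h'⟩ heq
      have hfe : f a = f a' := by
        simp only [Sigma.mk.injEq, Fin.mk.injEq] at heq
        exact Sigma.ext heq.1 heq.2
      exact Subtype.ext (f.injective hfe)
    refine h1.trans ?_
    rw [Cardinal.mk_sigma]
    simp only [Cardinal.mk_out]
    refine (Cardinal.sum_le_sum _ (fun _ => c n) (fun m => hc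
      (Nat.lt_succ_iff.1 m.2))).trans ?_
    rw [Cardinal.sum_const, Cardinal.lift_id, Cardinal.lift_id]
    refine (mul_le_mul' (b := c n) ((Cardinal.lt_aleph0_of_finite _).le.trans (hc0 n))
      le_rfl).trans (Cardinal.mul_eq_self (hc0 n)).le
  · intro m n hmn i hi
    exact le_trans hi hmn
  · intro i
    exact ⟨(f i).1, (le_rfl : (f i).1 ≤ (f i).1)⟩

theorem exists_beth_fixed (θ : Cardinal.{0}) :
    ∃ κ : Cardinal.{0}, θ < κ ∧ ℶ_ κ.ord = κ ∧ κ.ord.cof = ℵ₀ := by
  let k : ℕ → Cardinal.{0} := fun n => Nat.rec (max θ ℵ₀) (fun _ c => ℶ_ (c.ord + 1)) n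
  have hk0 : k 0 = max θ ℵ₀ := rfl
  have hks : ∀ n, k (n + 1) = ℶ_ ((k n).ord + 1) := fun n => rfl
  have hlt : ∀ n, k n < k (n + 1) := by
    intro n
    rw [hks]
    exact (Cardinal.le_beth_ord _).trans_lt (Cardinal.beth_lt_beth.2 (lt_add_one _))
  have hmono : StrictMono k := strictMono_nat_of_lt_succ hlt
  have hbdd : BddAbove (Set.range k) := Cardinal.bddAbove_of_small
  have hle : ∀ n, k n ≤ ⨆ n, k n := fun n => le_ciSup hbdd n
  have hl : ∀ n, k n < ⨆ n, k n := fun n => (hlt n).trans_le (hle (n + 1))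
  have hκ0 : ℵ₀ ≤ ⨆ n, k n := (le_max_right θ ℵ₀).trans (hk0 ▸ hle 0)
  have hlim := Cardinal.isSuccLimit_ord hκ0
  have hex : ∀ a : Ordinal.{0}, a < (⨆ n, k n).ord → ∃ n, a < (k n).ord := by
    intro a ha
    rw [Cardinal.lt_ord] at ha
    obtain ⟨n, hn⟩ := exists_lt_of_lt_ciSup ha
    exact ⟨n, Cardinal.lt_ord.2 hn⟩
  refine ⟨⨆ n, k n, ?_, ?_, ?_⟩
  · exact (le_max_left θ ℵ₀).trans_lt (hk0 ▸ hl 0)
  · refine le_antisymm ?_ (Cardinal.le_beth_ord _)
    rw [Cardinal.beth_limit hlim]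
    refine ciSup_le' ?_
    rintro ⟨a, ha⟩
    obtain ⟨n, hn⟩ := hex a ha
    refine le_trans (Cardinal.beth_le_beth.2 (hn.le.trans ?_)) (hle (n + 1))
    exact (lt_add_one _).le
  · have h1 : (⨆ n, k n).ord = ⨆ n, (k n).ord := by
      refine le_antisymm ?_ ?_
      · refine le_of_forall_lt (fun a ha => ?_)
        obtain ⟨n, hn⟩ := hex a ha
        exact hn.trans_le (Ordinal.le_iSup (fun n => (k n).ord) n)
      · exact ciSup_le' (fun n => Cardinal.ord_le_ord.2 (hle n))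
    rw [h1, Ordinal.cof_iSup (f := fun n => (k n).ord)
      (fun m n hmn => Cardinal.ord_lt_ord.2 (hmono hmn))]
    simp

open MeasureTheory in
/-- Powers of the countable discrete space satisfy the countable chain condition. -/
theorem ccc_nat {ι : Type} (B : Set (Set (ι → ℕ))) (hB : ∀ V ∈ B, IsOpen V ∧ V.Nonempty)
    (hd : B.PairwiseDisjoint id) : B.Countable := by
  classical
  have h1 : ∀ V : B, ∃ (s : Finset ι) (p : ι → ℕ), (s : Set ι).pi (fun i => {p i}) ⊆ V.1 := by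
    rintro ⟨V, hV⟩
    obtain ⟨p, hp⟩ := (hB V hV).2
    obtain ⟨s, u, hu, hsub⟩ := isOpen_pi_iff.1 (hB V hV).1 p hp
    refine ⟨s, p, fun x hx => hsub (fun i hi => ?_)⟩
    have : x i = p i := hx i hi
    rw [this]
    exact (hu i hi).2
  choose s p hsp using h1
  have hsum : (∑' n : ℕ, ((2 : ENNReal)⁻¹) ^ n) = 2 := by
    rw [ENNReal.tsum_geometric]
    norm_num
  let g : PMF ℕ := PMF.normalize (fun n => ((2 : ENNReal)⁻¹) ^ n) (by rw [hsum]; simp)
    (by rw [hsum]; simp)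
  have hg : ∀ n, g n ≠ 0 := by
    intro n
    rw [PMF.normalize_apply, hsum]
    simp
  let μ : ∀ _ : ι, Measure ℕ := fun _ => g.toMeasure
  have : ∀ i, IsProbabilityMeasure (μ i) := fun i => PMF.toMeasure.isProbabilityMeasure _
  have hpos : ∀ V : B, 0 < (Measure.infinitePi μ) ((s V : Set ι).pi (fun i => {p V i})) := by
    intro V
    rw [Measure.infinitePi_pi _ (fun i _ => MeasurableSet.singleton _)]
    rw [pos_iff_ne_zero, Finset.prod_ne_zero_iff]
    intro i _
    simp only [μ]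
    rw [PMF.toMeasure_apply_singleton _ _ (MeasurableSet.singleton _)]
    exact hg _
  have hc := Measure.countable_meas_pos_of_disjoint_iUnion (μ := Measure.infinitePi μ)
    (As := fun V : B => (s V : Set ι).pi (fun i => {p V i}))
    (fun V => MeasurableSet.pi (s V).countable_toSet (fun i _ => MeasurableSet.singleton _))
    (fun V V' hne => (hd V.2 V'.2 (fun h => hne (Subtype.ext h))).mono (hsp V) (hsp V'))
  have : {i : B | 0 < (Measure.infinitePi μ) ((s i : Set ι).pi (fun j => {p i j}))} = Set.univ := by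
    ext V; simp [hpos V]
  rw [this] at hc
  exact Set.countable_coe_iff.1 (Set.countable_univ_iff.1 hc)

/-- Products of separable spaces satisfy the countable chain condition. -/
theorem ccc {ι : Type} {X : ι → Type} [∀ i, TopologicalSpace (X i)] [∀ i, SeparableSpace (X i)]
    [∀ i, Nonempty (X i)] (B : Set (Set (∀ i, X i))) (hB : ∀ V ∈ B, IsOpen V ∧ V.Nonempty)
    (hd : B.PairwiseDisjoint id) : B.Countable := by
  choose d hd' using fun i => exists_dense_seq (X i)
  let Φ : (ι → ℕ) → (∀ i, X i) := fun f i => d i (f i)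
  have hΦc : Continuous Φ :=
    continuous_pi (fun i => (continuous_of_discreteTopology (f := d i)).comp (continuous_apply i))
  have hΦd : DenseRange Φ := DenseRange.piMap hd'
  have hne : ∀ V ∈ B, (Φ ⁻¹' V).Nonempty := by
    intro V hV
    obtain ⟨x, hx⟩ := hΦd.exists_mem_open (hB V hV).1 (hB V hV).2
    exact ⟨x, hx⟩
  have hdis : ∀ V ∈ B, ∀ V' ∈ B, V ≠ V' → Disjoint (Φ ⁻¹' V) (Φ ⁻¹' V') := by
    intro V hV V' hV' h
    exact Disjoint.preimage Φ (hd hV hV' h)
  have hinj : Set.InjOn (Set.preimage Φ) B := by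
    intro V hV V' hV' h
    by_contra hne'
    have h1 := hdis V hV V' hV' hne'
    rw [h, disjoint_self] at h1
    exact (hne V' hV').ne_empty h1
  refine Set.countable_of_injective_of_countable_image hinj (ccc_nat _ ?_ ?_)
  · rintro _ ⟨V, hV, rfl⟩
    exact ⟨(hB V hV).1.preimage hΦc, hne V hV⟩
  · rintro _ ⟨V, hV, rfl⟩ _ ⟨V', hV', rfl⟩ h
    exact hdis V hV V' hV' (fun h' => h (by rw [h']))

/-- Uncountable products of nontrivial Hausdorff spaces have no countable pi-base. -/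
theorem no_countable_pibase {ι : Type} {X : ι → Type} [∀ i, TopologicalSpace (X i)]
    [∀ i, T2Space (X i)] [∀ i, Nontrivial (X i)] [Uncountable ι] (B : Set (Set (∀ i, X i)))
    (hB : ∀ V ∈ B, IsOpen V ∧ V.Nonempty) (hc : B.Countable)
    (hpi : ∀ U : Set (∀ i, X i), IsOpen U → U.Nonempty → ∃ V ∈ B, V ⊆ U) : False := by
  classical
  have h1 : ∀ V : B, ∃ (s : Finset ι) (p : ∀ i, X i), ∀ x : ∀ i, X i,
      (∀ i ∈ s, x i = p i) → x ∈ V.1 := by
    rintro ⟨V, hV⟩
    obtain ⟨p, hp⟩ := (hB V hV).2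
    obtain ⟨s, u, hu, hsub⟩ := isOpen_pi_iff.1 (hB V hV).1 p hp
    refine ⟨s, p, fun x hx => hsub (fun i hi => ?_)⟩
    rw [hx i hi]
    exact (hu i hi).2
  choose s p hsp using h1
  have : Countable B := hc.to_subtype
  have hcs : (⋃ V : B, (s V : Set ι)).Countable :=
    Set.countable_iUnion (fun V => (s V).countable_toSet)
  obtain ⟨ξ, hξ⟩ : ∃ ξ, ξ ∉ (⋃ V : B, (s V : Set ι)) := by
    by_contra h
    push Not at h
    have : (⋃ V : B, (s V : Set ι)) = Set.univ := Set.eq_univ_of_forall h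
    rw [this] at hcs
    exact Set.not_countable_univ hcs
  obtain ⟨a, b, hab⟩ := exists_pair_ne (X ξ)
  obtain ⟨G, H, hG, hH, haG, hbH, hGH⟩ := t2_separation hab
  obtain ⟨V, hV, hVU⟩ := hpi {x | x ξ ∈ G} (hG.preimage (continuous_apply ξ))
    ⟨Function.update (fun i => Classical.arbitrary (X i)) ξ a, by
      change Function.update (fun i => Classical.arbitrary (X i)) ξ a ξ ∈ G
      rw [Function.update_self]
      exact haG⟩
  have hx : Function.update (p ⟨V, hV⟩) ξ b ∈ V := by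
    refine hsp ⟨V, hV⟩ _ (fun i hi => ?_)
    have : i ≠ ξ := by
      rintro rfl
      exact hξ (Set.mem_iUnion.2 ⟨⟨V, hV⟩, hi⟩)
    rw [Function.update_of_ne this]
  have h2 : Function.update (p ⟨V, hV⟩) ξ b ξ ∈ G := hVU hx
  rw [Function.update_self] at h2
  exact Set.disjoint_left.1 hGH h2 hbH

theorem pibase_iff {ι : Type} {X : ι → Type} [∀ i, TopologicalSpace (X i)]
    [∀ i, SecondCountableTopology (X i)] [∀ i, T2Space (X i)] [∀ i, Nontrivial (X i)] :
    HasSigmaDisjointPiBase (∀ i, X i) ↔ Countable ι := by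
  constructor
  · rintro ⟨B, hB, hd, hpi⟩
    by_contra hcount
    have : Uncountable ι := not_countable_iff.1 hcount
    refine no_countable_pibase (⋃ n, B n) ?_ (Set.countable_iUnion
      (fun n => ccc (B n) (hB n) (hd n))) ?_
    · intro V hV
      obtain ⟨n, hn⟩ := Set.mem_iUnion.1 hV
      exact hB n V hn
    · intro U hU hne
      obtain ⟨n, V, hV, hVU⟩ := hpi U hU hne
      exact ⟨V, Set.mem_iUnion.2 ⟨n, hV⟩, hVU⟩
  · intro hι
    obtain ⟨b, hbc, hbe, hb⟩ := TopologicalSpace.exists_countable_basis (∀ i, X i)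
    have hbne : b.Nonempty := by
      obtain ⟨v, hv, -⟩ := hb.exists_subset_of_mem_open
        (Set.mem_univ (fun i => Classical.arbitrary (X i))) isOpen_univ
      exact ⟨v, hv⟩
    obtain ⟨f, hf⟩ := hbc.exists_eq_range hbne
    refine ⟨fun n => {f n}, ?_, fun n => Set.pairwiseDisjoint_singleton _ _, ?_⟩
    · rintro n V rfl
      have hmem : f n ∈ b := hf ▸ ⟨n, rfl⟩
      refine ⟨hb.isOpen hmem, ?_⟩
      rw [Set.nonempty_iff_ne_empty]
      intro h
      exact hbe (h ▸ hmem)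
    · rintro U hU ⟨x, hx⟩
      obtain ⟨v, hv, -, hvU⟩ := hb.exists_subset_of_mem_open hx hU
      rw [hf] at hv
      obtain ⟨n, rfl⟩ := hv
      exact ⟨n, f n, rfl, hvU⟩

/-- **D-separable products over fixed points of the beth function.**

Let the spaces `X i` (`i : ι`) be nontrivial second countable Hausdorff spaces and let `κ` be the
number of factors. If `ℶ_κ = κ` and `κ` has countable cofinality, then the product is D-separable;
and the product has a sigma-disjoint pi-base if and only if `κ` is countable.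

There are arbitrarily large such `κ`, and then every product of `κ` many nontrivial compact second
countable Hausdorff spaces (for instance the Cantor cube and the Tychonoff cube of weight `κ`) is a
compact Hausdorff space which is D-separable and has no sigma-disjoint pi-base. -/
theorem result :
    (∀ (ι : Type) (X : ι → Type) [∀ i, TopologicalSpace (X i)]
      [∀ i, SecondCountableTopology (X i)] [∀ i, T2Space (X i)] [∀ i, Nontrivial (X i)],
      (ℶ_ (#ι).ord = #ι → (#ι).ord.cof = ℵ₀ → DSeparable (∀ i, X i)) ∧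
      (HasSigmaDisjointPiBase (∀ i, X i) ↔ Countable ι)) ∧
    (∀ θ : Cardinal.{0}, ∃ ι : Type, θ < #ι ∧ ℶ_ (#ι).ord = #ι ∧ (#ι).ord.cof = ℵ₀ ∧
      ∀ (X : ι → Type) [∀ i, TopologicalSpace (X i)] [∀ i, CompactSpace (X i)]
        [∀ i, SecondCountableTopology (X i)] [∀ i, T2Space (X i)] [∀ i, Nontrivial (X i)],
        CompactSpace (∀ i, X i) ∧ T2Space (∀ i, X i) ∧ DSeparable (∀ i, X i) ∧
          ¬ HasSigmaDisjointPiBase (∀ i, X i)) := by
  have h1 : ∀ (ι : Type) (X : ι → Type) [∀ i, TopologicalSpace (X i)]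
      [∀ i, SecondCountableTopology (X i)] [∀ i, T2Space (X i)] [∀ i, Nontrivial (X i)],
      ℶ_ (#ι).ord = #ι → (#ι).ord.cof = ℵ₀ → DSeparable (∀ i, X i) := by
    intro ι X _ _ _ _ hκ hcof
    have h0 : ℵ₀ < #ι := by
      have h : ℵ₀ ≤ #ι := by
        rw [← hκ]
        exact Cardinal.aleph0_le_beth _
      refine lt_of_le_of_ne h (fun heq => ?_)
      rw [← heq] at hκ
      have h3 : ℶ_ (0 : Ordinal.{0}) < ℶ_ (ℵ₀ : Cardinal.{0}).ord := by
        rw [Cardinal.beth_lt_beth, Cardinal.lt_ord, Ordinal.card_zero]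
        exact Cardinal.aleph0_pos
      rw [hκ, Cardinal.beth_zero] at h3
      exact lt_irrefl _ h3
    have : Infinite ι := Cardinal.infinite_iff.2 h0.le
    obtain ⟨c, hc1, hc2, hc3, hc4⟩ := exists_seq' h0 hcof
    obtain ⟨I, hI1, hI2, hI3⟩ := exists_exhaustion (fun c hc => two_pow_lt hκ hc) c hc1 hc2 hc4
    exact dSeparable_of (fun c hc => two_pow_lt hκ hc) c hc2
      (fun n j => mu_lt hκ (hc2 n) (hc3 n) j) I hI1 hI2 hI3
  refine ⟨fun ι X _ _ _ _ => ⟨h1 ι X, pibase_iff⟩, ?_⟩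
  intro θ
  obtain ⟨κ, hκ1, hκ2, hκ3⟩ := exists_beth_fixed (max θ ℵ₀)
  have hun : ¬ Countable κ.out := by
    intro h
    have h2 := Cardinal.mk_le_aleph0_iff.2 h
    rw [Cardinal.mk_out] at h2
    exact absurd (h2.trans (le_max_right θ ℵ₀)) (not_le.2 hκ1)
  refine ⟨κ.out, ?_⟩
  rw [Cardinal.mk_out]
  refine ⟨(le_max_left _ _).trans_lt hκ1, hκ2, hκ3, ?_⟩
  intro X _ _ _ _ _
  refine ⟨inferInstance, inferInstance, h1 κ.out X ?_ ?_, fun h => hun (pibase_iff.1 h)⟩
  · rw [Cardinal.mk_out]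
    exact hκ2
  · rw [Cardinal.mk_out]
    exact hκ3

end Pool.Agent.Results.MP_1644e0_gt.BethFixedPoints
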